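import Mathlib

/-!
# MP_ca5fbf_co: the inequality `A n ≥ B n` for the two single-column queens formulas fails

If `A n + K ≥ B n` held for every `n`, then `r₃` would satisfy the recursion
`r₃ N ≤ max_{a + b ≤ (3 N + 5) / 4} (r₃ a + r₃ b) + K`.  Iterating it `j` times and using the
trivial bound `r₃ a ≤ a` at the leaves gives `r₃ (3 ^ j) ≤ (K + 2) * (9 / 4) ^ j`, which
contradicts Behrend's lower bound.
-/

namespace Pool.Agent.Results.MP_ca5fbf_co.SingleColumnFormulas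

open Finset

/-- The finite set `s` contains no three-term arithmetic progression `a, a + d, a + 2 d` with
`d ≥ 1`. -/
def APFree (s : Finset ℕ) : Prop :=
  ∀ a d : ℕ, 1 ≤ d → ¬ (a ∈ s ∧ a + d ∈ s ∧ a + 2 * d ∈ s)

open Classical in
/-- `r3 m`: the largest size of a subset of `{1, …, m}` that contains no three-term arithmetic
progression. -/
noncomputable def r3 (m : ℕ) : ℕ :=
  ((Finset.Icc 1 m).powerset.filter APFree).sup Finset.card

/-- `A n = n - r3 ⌈n / 3⌉`. -/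
noncomputable def A (n : ℕ) : ℤ := (n : ℤ) - (r3 ⌈(n : ℚ) / 3⌉₊ : ℤ)

/-- `B n = n - max_{k + l = ⌈n / 2⌉} (r3 ⌈k / 2⌉ + r3 ⌈l / 2⌉)`, the maximum over pairs of
nonnegative integers. -/
noncomputable def B (n : ℕ) : ℤ :=
  (n : ℤ) - (((Finset.HasAntidiagonal.antidiagonal ⌈(n : ℚ) / 2⌉₊).sup
    (fun kl => r3 ⌈(kl.1 : ℚ) / 2⌉₊ + r3 ⌈(kl.2 : ℚ) / 2⌉₊) : ℕ) : ℤ)

/-! ### Comparison of `r3` with Mathlib's Roth number -/

lemma apFree_iff (s : Finset ℕ) : APFree s ↔ ThreeAPFree (s : Set ℕ) := by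
  constructor
  · intro h a ha b hb c hc habc
    by_contra hne
    rcases lt_or_gt_of_ne hne with hlt | hgt
    · refine h a (b - a) (by omega) ⟨by simpa using ha, ?_, ?_⟩
      · have : a + (b - a) = b := by omega
        rw [this]; simpa using hb
      · have : a + 2 * (b - a) = c := by omega
        rw [this]; simpa using hc
    · refine h c (b - c) (by omega) ⟨by simpa using hc, ?_, ?_⟩
      · have : c + (b - c) = b := by omega
        rw [this]; simpa using hb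
      · have : c + 2 * (b - c) = a := by omega
        rw [this]; simpa using ha
  · rintro h a d hd ⟨h1, h2, h3⟩
    have := h (by simpa using h1 : a ∈ (s : Set ℕ)) (by simpa using h2 : a + d ∈ (s : Set ℕ))
      (by simpa using h3 : a + 2 * d ∈ (s : Set ℕ)) (by ring)
    omega

lemma r3_eq (m : ℕ) : r3 m = rothNumberNat m := by
  classical
  have hIcc : addRothNumber (Finset.Icc 1 m) = rothNumberNat m := by
    have h := addRothNumber_Ico 1 (m + 1)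
    have h2 : Finset.Ico 1 (m + 1) = Finset.Icc 1 m := by
      ext x; simp only [Finset.mem_Ico, Finset.mem_Icc]; omega
    rw [h2] at h
    simpa using h
  rw [← hIcc]
  apply le_antisymm
  · unfold r3
    refine Finset.sup_le ?_
    intro s hs
    rw [Finset.mem_filter, Finset.mem_powerset] at hs
    exact ((apFree_iff s).1 hs.2).le_addRothNumber hs.1
  · obtain ⟨t, ht, hcard, hfree⟩ := addRothNumber_spec (Finset.Icc 1 m)
    rw [← hcard]
    unfold r3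
    refine Finset.le_sup (f := Finset.card) ?_
    rw [Finset.mem_filter, Finset.mem_powerset]
    exact ⟨ht, (apFree_iff t).2 hfree⟩

lemma r3_le (m : ℕ) : r3 m ≤ m := by
  rw [r3_eq]; exact rothNumberNat_le m

/-! ### The recursion -/

lemma ceil_three (N : ℕ) : ⌈((3 * N : ℕ) : ℚ) / 3⌉₊ = N := by
  have : (((3 * N : ℕ) : ℚ)) / 3 = (N : ℚ) := by push_cast; ring
  rw [this]; exact Nat.ceil_natCast N

lemma ceil_half_le (k : ℕ) : 2 * ⌈(k : ℚ) / 2⌉₊ ≤ k + 1 := by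
  have h : ⌈(k : ℚ) / 2⌉₊ ≤ (k + 1) / 2 := by
    rw [Nat.ceil_le]
    have h1 : k ≤ 2 * ((k + 1) / 2) := by omega
    have h2 : (k : ℚ) ≤ 2 * (((k + 1) / 2 : ℕ) : ℚ) := by exact_mod_cast h1
    linarith
  omega

/-- If the inequality `B n ≤ A n + K` holds for every positive `n`, then `r3` satisfies a
recursion. -/
lemma recursion (K : ℤ) (hK : ∀ n : ℕ, 0 < n → B n ≤ A n + K) (N : ℕ) (hN : 0 < N) :
    ∃ a b : ℕ, 4 * (a + b) ≤ 3 * N + 5 ∧ ((r3 N : ℕ) : ℤ) ≤ r3 a + r3 b + K := by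
  have h := hK (3 * N) (by omega)
  unfold A B at h
  rw [ceil_three] at h
  obtain ⟨kl, hkl, hsup⟩ := Finset.exists_mem_eq_sup (Finset.HasAntidiagonal.antidiagonal ⌈((3 * N : ℕ) : ℚ) / 2⌉₊)
    ⟨(0, ⌈((3 * N : ℕ) : ℚ) / 2⌉₊), by rw [Finset.HasAntidiagonal.mem_antidiagonal, zero_add]⟩
    (fun kl : ℕ × ℕ => r3 ⌈(kl.1 : ℚ) / 2⌉₊ + r3 ⌈(kl.2 : ℚ) / 2⌉₊)
  rw [hsup] at h
  rw [Finset.HasAntidiagonal.mem_antidiagonal] at hkl
  refine ⟨⌈(kl.1 : ℚ) / 2⌉₊, ⌈(kl.2 : ℚ) / 2⌉₊, ?_, ?_⟩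
  · have h1 := ceil_half_le kl.1
    have h2 := ceil_half_le kl.2
    have h3 := ceil_half_le (3 * N)
    omega
  · push_cast at h ⊢
    linarith

/-- Iterating the recursion `j` times. -/
lemma iterate (K : ℤ) (hK0 : 0 ≤ K) (hK : ∀ n : ℕ, 0 < n → B n ≤ A n + K) (j : ℕ) :
    ∀ N : ℕ, (r3 N : ℝ) ≤ (3 / 4) ^ j * N + ((K : ℝ) + 1) * 2 ^ j - K - (3 / 4) ^ j := by
  induction j with
  | zero =>
    intro N
    have : (r3 N : ℝ) ≤ N := by exact_mod_cast r3_le N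
    simp only [pow_zero]
    linarith
  | succ j ih =>
    intro N
    have hKr : (0 : ℝ) ≤ K := by exact_mod_cast hK0
    rcases Nat.eq_zero_or_pos N with rfl | hN
    · have h0 : r3 0 = 0 := Nat.le_zero.1 (r3_le 0)
      rw [h0]
      have h1 : (3 / 4 : ℝ) ^ (j + 1) ≤ 1 := pow_le_one₀ (by norm_num) (by norm_num)
      have h2 : (1 : ℝ) ≤ 2 ^ (j + 1) := one_le_pow₀ (by norm_num)
      push_cast
      nlinarith
    · obtain ⟨a, b, hab, hr⟩ := recursion K hK N hN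
      have hr' : (r3 N : ℝ) ≤ r3 a + r3 b + K := by exact_mod_cast hr
      have hab' : 4 * ((a : ℝ) + b) ≤ 3 * N + 5 := by exact_mod_cast hab
      have ha := ih a
      have hb := ih b
      have hp : (0 : ℝ) < (3 / 4) ^ j := by positivity
      have hmul : (3 / 4 : ℝ) ^ j * (4 * ((a : ℝ) + b)) ≤ (3 / 4 : ℝ) ^ j * (3 * N + 5) :=
        mul_le_mul_of_nonneg_left hab' hp.le
      rw [pow_succ, pow_succ]
      nlinarith

lemma log_three_le : Real.log 3 ≤ 25 / 16 := by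
  rw [Real.log_le_iff_le_exp (by norm_num)]
  have h := Real.quadratic_le_exp_of_nonneg (show (0 : ℝ) ≤ 25 / 16 by norm_num)
  norm_num at h ⊢
  linarith

/-- Behrend's bound along `N = 3 ^ (t ^ 2)`. -/
lemma behrend_power (t : ℕ) (ht : 20 ≤ t) :
    (2 : ℝ) ^ t * (9 / 4) ^ (t ^ 2) ≤ r3 (3 ^ (t ^ 2)) := by
  rw [r3_eq]
  refine le_trans ?_ (Behrend.roth_lower_bound (N := 3 ^ (t ^ 2)))
  push_cast
  have hlog : Real.log ((3 : ℝ) ^ (t ^ 2)) = (t : ℝ) ^ 2 * Real.log 3 := by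
    rw [Real.log_pow]; push_cast; ring
  have hsqrt : √(Real.log ((3 : ℝ) ^ (t ^ 2))) ≤ (t : ℝ) * (5 / 4) := by
    rw [hlog]
    apply Real.sqrt_le_iff.2
    refine ⟨by positivity, ?_⟩
    have := log_three_le
    have ht2 : (0 : ℝ) ≤ (t : ℝ) ^ 2 := by positivity
    nlinarith
  have hexp : Real.exp (-(5 : ℝ)) ^ t ≤ Real.exp (-4 * √(Real.log ((3 : ℝ) ^ (t ^ 2)))) := by
    rw [← Real.exp_nat_mul]
    apply Real.exp_le_exp.2
    linarith
  have h34 : (2 : ℝ) * Real.exp 5 ≤ (4 / 3) ^ t := by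
    have h1 : (4 / 3 : ℝ) ^ 20 ≤ (4 / 3) ^ t := pow_le_pow_right₀ (by norm_num) ht
    have h2 : Real.exp 5 = Real.exp 1 ^ 5 := by
      rw [← Real.exp_nat_mul]; norm_num
    have h3 : Real.exp 1 ^ 5 ≤ (2.7182818286 : ℝ) ^ 5 :=
      pow_le_pow_left₀ (Real.exp_pos 1).le Real.exp_one_lt_d9.le 5
    rw [h2]
    norm_num at h1 h3 ⊢
    linarith
  have h2le : (2 : ℝ) ≤ (4 / 3) ^ t * Real.exp (-5) := by
    have h5 : Real.exp 5 * Real.exp (-5) = 1 := by
      rw [← Real.exp_add]; norm_num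
    have := mul_le_mul_of_nonneg_right h34 (Real.exp_pos (-5)).le
    nlinarith
  have hpow : (2 : ℝ) ^ t ≤ ((4 / 3) ^ t * Real.exp (-5)) ^ t :=
    pow_le_pow_left₀ (by norm_num) h2le t
  have hfac : (3 : ℝ) ^ (t ^ 2) = (4 / 3) ^ (t ^ 2) * (9 / 4) ^ (t ^ 2) := by
    rw [← mul_pow]; norm_num
  have h43 : ((4 / 3 : ℝ) ^ t * Real.exp (-5)) ^ t = (4 / 3) ^ (t ^ 2) * Real.exp (-5) ^ t := by
    rw [mul_pow, ← pow_mul, sq]
  rw [h43] at hpow
  have h94 : (0 : ℝ) < (9 / 4) ^ (t ^ 2) := by positivity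
  have h43p : (0 : ℝ) < (4 / 3) ^ (t ^ 2) := by positivity
  calc (2 : ℝ) ^ t * (9 / 4) ^ (t ^ 2)
      ≤ ((4 / 3) ^ (t ^ 2) * Real.exp (-5) ^ t) * (9 / 4) ^ (t ^ 2) :=
        mul_le_mul_of_nonneg_right hpow h94.le
    _ = (3 : ℝ) ^ (t ^ 2) * Real.exp (-5) ^ t := by rw [hfac]; ring
    _ ≤ (3 : ℝ) ^ (t ^ 2) * Real.exp (-4 * √(Real.log ((3 : ℝ) ^ (t ^ 2)))) :=
        mul_le_mul_of_nonneg_left hexp (by positivity)

/-- **Disproof of `A n ≥ B n`.**  The difference `B n - A n` takes arbitrarily large values: for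
every integer `K` there is a positive integer `n` with `A n + K < B n`.  In particular
`A n < B n` for infinitely many `n`. -/
theorem result : ∀ K : ℤ, ∃ n : ℕ, 0 < n ∧ A n + K < B n := by
  intro K
  by_contra hcon
  push Not at hcon
  obtain ⟨k, hkK⟩ : ∃ k : ℕ, K ≤ (k : ℤ) := ⟨K.toNat, Int.self_le_toNat K⟩
  have hK' : ∀ n : ℕ, 0 < n → B n ≤ A n + (k : ℤ) := by
    intro n hn
    have h1 := hcon n hn
    linarith
  obtain ⟨t, ht⟩ : ∃ t : ℕ, t = k + 20 := ⟨_, rfl⟩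
  have hit := iterate (k : ℤ) (Int.natCast_nonneg k) hK' (t ^ 2) (3 ^ (t ^ 2))
  have hbe := behrend_power t (by omega)
  have h94 : (1 : ℝ) ≤ (9 / 4) ^ (t ^ 2) := one_le_pow₀ (by norm_num)
  have h2 : (2 : ℝ) ^ (t ^ 2) ≤ (9 / 4) ^ (t ^ 2) :=
    pow_le_pow_left₀ (by norm_num) (by norm_num) _
  have h34 : (3 / 4 : ℝ) ^ (t ^ 2) * ((3 ^ (t ^ 2) : ℕ) : ℝ) = (9 / 4) ^ (t ^ 2) := by
    push_cast
    rw [← mul_pow]; norm_num
  rw [h34] at hit
  have hp34 : (0 : ℝ) ≤ (3 / 4) ^ (t ^ 2) := by positivity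
  have hkr : (0 : ℝ) ≤ (k : ℝ) := Nat.cast_nonneg k
  have hup : (r3 (3 ^ (t ^ 2)) : ℝ) ≤ ((k : ℝ) + 2) * (9 / 4) ^ (t ^ 2) := by
    push_cast at hit
    nlinarith
  have hlt : ((k : ℝ) + 2) < 2 ^ t := by
    have h1 : t < 2 ^ t := Nat.lt_two_pow_self
    have h2 : k + 2 < 2 ^ t := by omega
    exact_mod_cast h2
  have hpos : (0 : ℝ) < (9 / 4) ^ (t ^ 2) := by positivity
  have := mul_lt_mul_of_pos_right hlt hpos
  linarith

end Pool.Agent.Results.MP_ca5fbf_co.SingleColumnFormulas
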